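import Pool.Agent.V11230.JITMain

/-!
# FEAS is NP-complete

Given decomposition vectors `α¹, …, αⁿ` of `D = ∑ dᵢ`, it is NP-complete to decide whether some
just-in-time sequence has, for every letter `i`, the components of `αⁱ` as its multiset of cyclic
distances.

The reduction is from three-dimensional matching through exact bin packing with bins of several
sizes (sizes in unary).  One letter is a separator, whose prescribed distances are the capacities
of the bins plus one.  An item of size `a` is a letter which occurs `a` times with the distances
`D - a + 1, 1, …, 1`; so it occupies an interval of the circle, which lies between two consecutive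
separators.
-/

namespace Pool.Agent.Results.MP_0403ae_lc.FeasNPComplete

open Pool.Agent.NPC Pool.Agent.NPC.V11230.JIT

/-- **FEAS is NP-complete.** -/
theorem result : InNPP FEAS ∧ NPHardP FEAS := ⟨inNPP_FEAS, hardI_FEAS.toNPHardP⟩

end Pool.Agent.Results.MP_0403ae_lc.FeasNPComplete
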